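import Mathlib

namespace Pool.Agent.Results.MP_a0b46e_nt.Yes

open Finset

def S (m n : ℕ) : ℚ :=
  ∑ k ∈ Icc 1 n, ((n.choose k : ℚ) ^ 2 * ((n + k).choose k : ℚ) ^ 2) / (k : ℚ) ^ (2 * m + 1)

theorem rec_g (n k : ℕ) (h : k ≤ n) : (n.choose (k + 1) * (n + (k + 1)).choose (k + 1) : ℤ) *
    (k + 1) ^ 2 = n.choose k * (n + k).choose k * ((n - k) * (n + k + 1)) := by
  have h1 := Nat.choose_succ_right_eq n k
  have h2 := Nat.add_one_mul_choose_eq (n + k) k
  zify [h] at h1 h2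
  rw [← add_assoc]
  linear_combination ((n + k + 1).choose (k + 1) * (k + 1) : ℤ) * h1 -
    (n.choose k * (n - k) : ℤ) * h2

theorem term {R : Type} [CommRing R] (n : ℕ) (u : ℕ → R) (hu : ∀ k, 1 ≤ k → k ≤ n → k * u k = 1)
    (k : ℕ) (h1 : 1 ≤ k) (h2 : k ≤ n) : ∃ t : R, (n.choose k * (n + k).choose k : R) =
      (-1) ^ k * ((n + 1) * u k) * (1 - (n + 1) * u k) * (1 + (n + 1) ^ 2 * t) := by
  induction k, h1 using Nat.le_induction with
  | base =>
    have := hu 1 le_rfl h2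
    rw [Nat.cast_one, one_mul] at this
    exact ⟨0, by simp [this]; ring⟩
  | succ k h1 ih =>
    obtain ⟨t, ht⟩ := ih (by omega)
    have a := hu k h1 (by omega)
    have b := hu (k + 1) (by omega) h2
    have c := congrArg (Int.cast : ℤ → R) (rec_g n k (by omega))
    push_cast at b c
    rw [ht] at c
    refine ⟨t - u k ^ 2 * (1 + (n + 1) ^ 2 * t), ?_⟩
    generalize (n.choose (k + 1) * (n + (k + 1)).choose (k + 1) : R) = g at c ⊢
    have d : (n : R) - k = -(k + 1) * (1 - (n + 1) * u (k + 1)) := by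
      linear_combination -(n + 1) * b
    have e : (n : R) + k + 1 = k * (1 + (n + 1) * u k) := by linear_combination -(n + 1) * a
    rw [d, e] at c
    generalize (n + 1 : R) = P at c ⊢
    linear_combination u (k + 1) ^ 2 * c - g * ((k + 1) * u (k + 1) + 1) * b -
      ((-1) ^ k * P * (1 - P * u k) * (1 + P ^ 2 * t) * (1 - P * u (k + 1)) * (1 + P * u k) *
        u (k + 1)) * (k * u k * b + a)

theorem pow_one_add {R : Type} [CommRing R] (x : R) (j : ℕ) :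
    ∃ s, (1 + x) ^ j = 1 + j * x + x ^ 2 * s := by
  induction j with
  | zero => exact ⟨0, by simp⟩
  | succ j ih =>
    obtain ⟨s, h⟩ := ih
    exact ⟨s + j + x * s, by rw [pow_succ, h]; push_cast; ring⟩

theorem result (m : ℕ) : ∃ E : Finset ℕ, (∀ p ∈ E, p.Prime) ∧
    ∀ p : ℕ, p.Prime → p ∉ E → (p : ℤ) ^ 4 ∣ (S m (p - 1)).num := by
  refine ⟨(range (2 * m + 6)).filter Nat.Prime, fun p h => (mem_filter.1 h).2, fun p hp hE => ?_⟩
  have hm : 2 * m + 6 ≤ p := by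
    by_contra h
    exact hE (mem_filter.2 ⟨mem_range.2 (by omega), hp⟩)
  haveI := Fact.mk hp
  obtain ⟨n, rfl⟩ : ∃ n, p = n + 1 := ⟨p - 1, by omega⟩
  rw [Nat.add_sub_cancel]
  have cop : ∀ k, 1 ≤ k → k ≤ n → k.Coprime (n + 1) := fun k a b =>
    (Nat.coprime_of_lt_prime (by omega) (by omega) hp).symm
  let u : ℕ → ZMod ((n + 1) ^ 4) := fun k => (k : ZMod ((n + 1) ^ 4))⁻¹
  have hu : ∀ k, 1 ≤ k → k ≤ n → k * u k = 1 := fun k a b =>
    ZMod.coe_mul_inv_eq_one k ((cop k a b).pow_right 4)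
  have p4 : ((n : ZMod ((n + 1) ^ 4)) + 1) ^ 4 = 0 := by
    exact_mod_cast ZMod.natCast_self ((n + 1) ^ 4)
  have s1 : ((n : ZMod ((n + 1) ^ 4)) + 1) ^ 3 * ∑ k ∈ Icc 1 n, u k ^ (2 * m + 4) = 0 := by
    let φ := ZMod.castHom (dvd_pow_self (n + 1) four_ne_zero) (ZMod (n + 1))
    have h1 : φ (∑ k ∈ Icc 1 n, u k ^ (2 * m + 4)) = 0 := by
      rw [← FiniteField.sum_pow_lt_card_sub_one (ZMod (n + 1)) (2 * m + 4) (by
        rw [ZMod.card]; omega), ← Equiv.sum_comp (Equiv.inv _), map_sum]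
      have : ∀ k ∈ Icc 1 n, φ (u k ^ (2 * m + 4)) = ((k : ZMod (n + 1))⁻¹) ^ (2 * m + 4) :=
        fun k hk => by
          have := congrArg φ (hu k (mem_Icc.1 hk).1 (mem_Icc.1 hk).2)
          rw [map_mul, map_natCast, map_one] at this
          rw [map_pow, eq_inv_of_mul_eq_one_right this]
      rw [sum_congr rfl this]
      refine sum_of_injOn (fun k : ℕ => (k : ZMod (n + 1))) (fun a ha b hb h => ?_)
        (fun _ _ => mem_univ _) (fun x _ hx => ?_) fun _ _ => rfl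
      · have := (ZMod.natCast_eq_natCast_iff' _ _ _).1 h
        rwa [Nat.mod_eq_of_lt (Nat.lt_succ_of_le (mem_Icc.1 ha).2),
          Nat.mod_eq_of_lt (Nat.lt_succ_of_le (mem_Icc.1 hb).2)] at this
      · obtain rfl : x = 0 := by
          by_contra h0
          exact hx ⟨x.val, mem_coe.2 (mem_Icc.2 ⟨ZMod.val_pos.2 h0,
            Nat.lt_succ_iff.1 x.val_lt⟩), ZMod.natCast_zmod_val x⟩
        simp
    obtain ⟨y, hy⟩ := ZMod.natCast_zmod_surjective (∑ k ∈ Icc 1 n, u k ^ (2 * m + 4))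
    rw [← hy, map_natCast, ZMod.natCast_eq_zero_iff] at h1
    obtain ⟨z, rfl⟩ := h1
    rw [← hy]
    push_cast
    linear_combination z * p4
  have s2 : ((n : ZMod ((n + 1) ^ 4)) + 1) ^ 2 * ∑ k ∈ Icc 1 n, u k ^ (2 * m + 3) = 0 := by
    have e : ∑ k ∈ Icc 1 n, u k ^ (2 * m + 3) = ∑ k ∈ Icc 1 n, u (n + 1 - k) ^ (2 * m + 3) :=
      sum_nbij' (fun k => n + 1 - k) (fun k => n + 1 - k) (by simp; omega) (by simp; omega)
        (by simp; omega) (by simp; omega) fun k hk => by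
          rw [show n + 1 - (n + 1 - k) = k by have := mem_Icc.1 hk; omega]
    have f : ∑ k ∈ Icc 1 n, ((n : ZMod ((n + 1) ^ 4)) + 1) ^ 2 * (u k ^ (2 * m + 3) +
        u (n + 1 - k) ^ (2 * m + 3)) = ∑ k ∈ Icc 1 n, -(2 * m + 3 : ℕ) *
          (((n : ZMod ((n + 1) ^ 4)) + 1) ^ 3 * u k ^ (2 * m + 4)) := sum_congr rfl fun k hk => by
      obtain ⟨a, b⟩ := mem_Icc.1 hk
      have c := hu k a b
      have d := hu (n + 1 - k) (by omega) (by omega)
      rw [Nat.cast_sub (by omega)] at d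
      push_cast at d
      generalize (n : ZMod ((n + 1) ^ 4)) + 1 = P at p4 d ⊢
      have g : u (n + 1 - k) = -u k * (1 + (P * u k + P ^ 2 * (u k ^ 2 + P * u k ^ 3))) := by
        linear_combination (-u k * (1 + (P * u k + P ^ 2 * (u k ^ 2 + P * u k ^ 3)))) * d +
          u (n + 1 - k) * u k ^ 4 * p4 -
          u (n + 1 - k) * (1 + (P * u k + P ^ 2 * (u k ^ 2 + P * u k ^ 3))) * c
      obtain ⟨s, hs⟩ := pow_one_add (P * u k + P ^ 2 * (u k ^ 2 + P * u k ^ 3)) (2 * m + 3)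
      rw [g, mul_pow, hs, Odd.neg_pow ⟨m + 1, by ring⟩]
      linear_combination (-u k ^ (2 * m + 3) * ((2 * m + 3 : ℕ) * (u k ^ 2 + P * u k ^ 3) +
        (u k + P * (u k ^ 2 + P * u k ^ 3)) ^ 2 * s)) * p4
    rw [← mul_sum, ← mul_sum, ← mul_sum, sum_add_distrib, ← e, s1] at f
    have := hu 2 (by norm_num) (by omega)
    push_cast at this
    linear_combination u 2 * f - (((n : ZMod ((n + 1) ^ 4)) + 1) ^ 2 *
      ∑ k ∈ Icc 1 n, u k ^ (2 * m + 3)) * this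
  let A : ℕ := ∑ k ∈ Icc 1 n, (n.choose k * (n + k).choose k) ^ 2 * (n.factorial / k) ^ (2 * m + 1)
  have hA : (A : ZMod ((n + 1) ^ 4)) = 0 := by
    have : (A : ZMod ((n + 1) ^ 4)) = ∑ k ∈ Icc 1 n, (n.factorial : ZMod ((n + 1) ^ 4)) ^ (2 * m + 1) *
        (((n : ZMod ((n + 1) ^ 4)) + 1) ^ 2 * u k ^ (2 * m + 3) -
          2 * (((n : ZMod ((n + 1) ^ 4)) + 1) ^ 3 * u k ^ (2 * m + 4))) := by
      rw [Nat.cast_sum]
      refine sum_congr rfl fun k hk => ?_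
      obtain ⟨a, b⟩ := mem_Icc.1 hk
      obtain ⟨t, ht⟩ := term n u hu k a b
      have c : ((n.factorial / k : ℕ) : ZMod ((n + 1) ^ 4)) = n.factorial * u k := by
        have := congrArg (Nat.cast : ℕ → ZMod ((n + 1) ^ 4))
          (Nat.div_mul_cancel (Nat.dvd_factorial a b))
        rw [Nat.cast_mul] at this
        linear_combination u k * this - ((n.factorial / k : ℕ) : ZMod ((n + 1) ^ 4)) * hu k a b
      rw [Nat.cast_mul, Nat.cast_pow, Nat.cast_pow, Nat.cast_mul, ht, c]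
      have e : ((-1 : ZMod ((n + 1) ^ 4)) ^ k) ^ 2 = 1 := by rw [← pow_mul, mul_comm, pow_mul]; simp
      generalize (n : ZMod ((n + 1) ^ 4)) + 1 = P at p4 ⊢
      generalize (-1 : ZMod ((n + 1) ^ 4)) ^ k = s at e ⊢
      rw [mul_pow _ (u k) (2 * m + 1)]
      linear_combination ((n.factorial : ZMod ((n + 1) ^ 4)) ^ (2 * m + 1) * u k ^ (2 * m + 3) *
        (P * (1 - P * u k) * (1 + P ^ 2 * t)) ^ 2) * e +
        ((n.factorial : ZMod ((n + 1) ^ 4)) ^ (2 * m + 1) * u k ^ (2 * m + 3) *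
          (u k ^ 2 + (1 - P * u k) ^ 2 * (2 * t + P ^ 2 * t ^ 2))) * p4
    rw [this, ← mul_sum, sum_sub_distrib, ← mul_sum, ← mul_sum, ← mul_sum, s1, s2]
    simp
  have hS : S m n * (n.factorial : ℚ) ^ (2 * m + 1) = A := by
    rw [S, sum_mul, Nat.cast_sum]
    refine sum_congr rfl fun k hk => ?_
    obtain ⟨a, b⟩ := mem_Icc.1 hk
    have : (k : ℚ) ≠ 0 := by positivity
    push_cast [Nat.cast_div (Nat.dvd_factorial a b) this]
    rw [div_pow]
    ring
  have h1 : (S m n).num * (n.factorial : ℤ) ^ (2 * m + 1) = A * (S m n).den := by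
    have : ((S m n).num : ℚ) * (n.factorial : ℚ) ^ (2 * m + 1) = A * (S m n).den := by
      rw [← hS, ← Rat.mul_den_eq_num]; ring
    exact_mod_cast this
  have h2 : (((n + 1 : ℕ) : ℤ)) ^ 4 ∣ A := by
    exact_mod_cast (ZMod.natCast_eq_zero_iff _ _).1 hA
  exact (Nat.isCoprime_iff_coprime.2 (hp.coprime_factorial_of_lt (Nat.lt_succ_self n))).pow.dvd_of_dvd_mul_right
    (h1 ▸ h2.mul_right _)

end Pool.Agent.Results.MP_a0b46e_nt.Yes
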